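import Mathlib

set_option autoImplicit false

namespace Pool.Agent.Results.MP_773328_co.Parity

open Finset PowerSeries Nat

/-- `F(z) = ∑ (-1)^k z^(2k+1) / (k! (k+1)! (2k+1))`. -/
noncomputable def F : ℚ⟦X⟧ :=
  mk fun n => if n % 2 = 1 then (-1) ^ (n / 2) / ((n / 2)! * (n / 2 + 1)! * n) else 0

/-- `a n = n! [z^n] (-log (1 - F))`. -/
noncomputable def a (n : ℕ) : ℚ := n ! * coeff n (-logOf (1 - F))

def f (n : ℕ) : ℤ := if n % 2 = 1 then (-1) ^ (n / 2) * catalan (n / 2) else 0

theorem hf (n : ℕ) : coeff n F = f n / n ! := by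
  rw [F, f, coeff_mk]
  split_ifs with h
  · obtain ⟨k, rfl⟩ : ∃ k, n = 2 * k + 1 := ⟨n / 2, by omega⟩
    have e : ((2 * k)! : ℚ) = (k + 1) * catalan k * k ! * k ! := by
      have := choose_mul_factorial_mul_factorial (show k ≤ 2 * k by omega)
      rw [← centralBinom, ← succ_mul_catalan_eq_centralBinom, show 2 * k - k = k by omega] at this
      exact_mod_cast this.symm
    have c : (catalan k : ℚ) ≠ 0 := fun z => by
      rw [z] at e; simp [factorial_ne_zero] at e
    rw [show (2 * k + 1) / 2 = k by omega, factorial_succ, factorial_succ]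
    push_cast
    rw [e]
    field_simp
  · simp

theorem recu (n : ℕ) : a (n + 1) = f (n + 1) +
    ∑ p ∈ antidiagonal n, n.choose p.1 * a (p.1 + 1) * f p.2 := by
  have hs : HasSubst (1 - F - 1) := HasSubst.of_constantCoeff_zero' (by
    rw [← coeff_zero_eq_constantCoeff_apply]; simp [hf, f, -coeff_zero_eq_constantCoeff])
  have e1 : d⁄dX ℚ (log ℚ) * (1 + X) = 1 := by
    ext n
    rcases n with _ | n <;> simp [deriv_log, mul_add, coeff_succ_mul_X, coeff_one, pow_succ,
      coeff_zero_mul_X, -coeff_zero_eq_constantCoeff]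
  have e2 := congrArg (subst (1 - F - 1)) e1
  rw [subst_mul hs, subst_add hs, subst_X hs, ← coe_substAlgHom hs, map_one] at e2
  have e3 : d⁄dX ℚ (-logOf (1 - F)) = d⁄dX ℚ F + d⁄dX ℚ (-logOf (1 - F)) * F := by
    rw [map_neg, logOf_eq, derivative_subst hs, ← coe_substAlgHom hs]
    simp only [map_sub, Derivation.map_one_eq_zero]
    linear_combination d⁄dX ℚ F * e2
  have e4 := congrArg (coeff n) e3
  rw [map_add, coeff_mul, coeff_derivative, coeff_derivative, hf] at e4
  have k : ∀ i, coeff (i + 1) (-logOf (1 - F)) * (i + 1) = a (i + 1) / i ! := fun i => by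
    rw [a, factorial_succ]; push_cast; field_simp
  rw [k, div_eq_iff (by positivity), add_mul, sum_mul] at e4
  rw [e4]
  congr 1
  · rw [factorial_succ]; push_cast; field_simp
  · refine sum_congr rfl fun p hp => ?_
    rw [coeff_derivative, k, hf, ← HasAntidiagonal.mem_antidiagonal.1 hp, add_comm p.1 p.2, ← add_choose_mul_factorial_mul_factorial,
      ← choose_symm_add]
    push_cast; field_simp

open Classical in
noncomputable def g (n : ℕ) : ZMod 2 := if ∃ t, n + 1 = 2 ^ t then 1 else 0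

theorem g1 (k : ℕ) : g (2 * k + 1) = g k := by
  unfold g
  congr 1
  refine propext ⟨fun ⟨t, h⟩ => ?_, fun ⟨t, h⟩ => ⟨t + 1, by rw [pow_succ]; omega⟩⟩
  rcases t with _ | t
  · omega
  · exact ⟨t, by rw [pow_succ] at h; omega⟩

theorem g2 (k : ℕ) : g (2 * k + 2) = 0 := if_neg fun ⟨t, h⟩ => by
  rcases t with _ | t
  · omega
  · rw [pow_succ] at h; omega

theorem g0 : g 0 = 1 := if_pos ⟨0, rfl⟩

theorem cat (n : ℕ) : (catalan n : ZMod 2) = g n := by
  induction n using Nat.strong_induction_on with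
  | _ n ih =>
  rcases n with _ | n
  · simp [g0]
  rw [catalan_succ', ← sum_filter_add_sum_filter_not _ fun p => p.1 = p.2]
  push_cast
  rw [sum_involution (s := filter (fun p => ¬ p.1 = p.2) _) (fun p _ => p.swap)
    (fun p _ => by simp [mul_comm, CharTwo.add_self_eq_zero])
    (fun p hp _ z => (mem_filter.1 hp).2 (congrArg Prod.snd z))
    (fun p hp => by simp at hp ⊢; omega) fun _ _ => rfl, add_zero]
  rcases Nat.even_or_odd' n with ⟨k, rfl | rfl⟩
  · rw [show filter _ _ = {(k, k)} by ext ⟨x, y⟩; simp; omega, sum_singleton, ih k (by omega), g1]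
    generalize g k = x
    revert x; decide
  · rw [filter_false_of_mem fun p hp => by simp at hp; omega, g2, sum_empty]

theorem fg (n : ℕ) (h : n ≠ 0) : (f n : ZMod 2) = g n := by
  rcases Nat.even_or_odd' n with ⟨k, rfl | rfl⟩
  · obtain ⟨k, rfl⟩ := exists_eq_succ_of_ne_zero (show k ≠ 0 by omega)
    simp [f, mul_succ, g2]
  · simp [f, show (2 * k + 1) / 2 = k by omega, cat, g1, CharTwo.neg_eq]

theorem luc (n k : ℕ) : (n.choose k : ZMod 2) = (n % 2).choose (k % 2) * (n / 2).choose (k / 2) := by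
  exact_mod_cast (ZMod.natCast_eq_natCast_iff _ _ 2).2
    (Choose.choose_modEq_choose_mod_mul_choose_div_nat (p := 2))

theorem term (i j : ℕ) : ((i + j).choose i * (g (i + 1) + if i = 1 then 1 else 0) * f j : ZMod 2) =
    (if i = 0 then (f j : ZMod 2) else 0) + if j = 1 ∧ i ≠ 0 then g (i + 1) else 0 := by
  have o : g 1 = 1 := (g1 0).trans g0
  rcases Nat.even_or_odd' j with ⟨y, rfl | rfl⟩
  · simp [f]
  rw [fg _ (by omega), g1, luc]
  rcases Nat.even_or_odd' i with ⟨x, rfl | rfl⟩
  · rw [show (2 * x + (2 * y + 1)) / 2 = x + y by omega, show (2 * x + (2 * y + 1)) % 2 = 1 by omega,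
      show 2 * x / 2 = x by omega, show 2 * x % 2 = 0 by omega, g1, if_neg (by omega : 2 * x ≠ 1)]
    rcases x with _ | x
    · simp [g0]
    rcases y with _ | y
    · simp [g0]
    rcases Nat.even_or_odd' x with ⟨u, rfl | rfl⟩
    · rcases Nat.even_or_odd' y with ⟨v, rfl | rfl⟩
      · rw [luc (2 * u + 1 + _), show (2 * u + 1 + (2 * v + 1)) % 2 = 0 by omega, show (2 * u + 1) % 2 = 1 by omega]
        simp
      · simp [g2]
    · simp [g2]
  · rw [show (2 * x + 1 + (2 * y + 1)) % 2 = 0 by omega, show (2 * x + 1) % 2 = 1 by omega]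
    simp [g2]

theorem main (n : ℕ) : ∃ z : ℤ, a (n + 1) = z ∧ (z : ZMod 2) = g (n + 1) + if n = 1 then 1 else 0 := by
  induction n using Nat.strong_induction_on with
  | _ n ih =>
  choose! z z1 z2 using ih
  have f0 : f 0 = 0 := rfl
  refine ⟨f (n + 1) + ∑ p ∈ antidiagonal n, n.choose p.1 * z p.1 * f p.2, ?_, ?_⟩
  · rw [recu]
    push_cast
    congr 1
    refine sum_congr rfl fun p hp => ?_
    rcases Nat.eq_zero_or_pos p.2 with h | h
    · simp [h, f0]
    · rw [z1 _ (by have := HasAntidiagonal.mem_antidiagonal.1 hp; omega)]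
  · push_cast
    rw [fg _ (by omega), sum_congr rfl (g := fun p => (if p.1 = 0 then (f p.2 : ZMod 2) else 0) +
      if p.2 = 1 ∧ p.1 ≠ 0 then g (p.1 + 1) else 0) fun p hp => ?_]
    · congr 1
      rw [sum_add_distrib, ← sum_filter, ← sum_filter,
        show filter _ _ = {(0, n)} by ext ⟨x, y⟩; simp; omega, sum_singleton]
      rcases n with _ | _ | n
      · simp [f0, filter_singleton]
      · simp [f, Nat.antidiagonal_succ, filter_insert, filter_singleton]
      · rw [show filter _ _ = {(n + 1, 1)} by ext ⟨x, y⟩; simp; omega, sum_singleton, fg _ (by omega)]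
        simp [CharTwo.add_self_eq_zero]
    · rw [← term, HasAntidiagonal.mem_antidiagonal.1 hp]
      rcases Nat.eq_zero_or_pos p.2 with h | h
      · simp [h, f0]
      · rw [z2 _ (by have := HasAntidiagonal.mem_antidiagonal.1 hp; omega)]

theorem result (n : ℕ) (hn : 3 ≤ n) : ∃ z : ℤ, a n = z ∧ (Odd z ↔ ∃ t : ℕ, n + 1 = 2 ^ t) := by
  obtain ⟨m, rfl⟩ := exists_eq_succ_of_ne_zero (show n ≠ 0 by omega)
  obtain ⟨z, h1, h2⟩ := main m
  refine ⟨z, h1, ?_⟩
  rw [← ZMod.intCast_eq_one_iff_odd, h2, if_neg (by omega), add_zero, g]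
  split_ifs with h <;> simp [h]

end Pool.Agent.Results.MP_773328_co.Parity
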